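import Pool.Agent.X171.OC.Final

/-!
# MP_100021_an: order continuous functionals on projective Banach lattices

Every order continuous functional on a projective Banach lattice which vanishes at the atoms is
zero.
-/

namespace Pool.Agent.Results.MP_100021_an.DeterminedByAtoms

open Pool.Agent.X171.BL (BanachLattice IsLatticeHom)
open Pool.Agent.X171.SP (ClosedIdeal OnePlusProjective)
open Pool.Agent.X171.OC

universe u

theorem fp_eq_zero (X : Type u) [NormedAddCommGroup X] [Lattice X] [NormedSpace ℝ X]
    [BanachLattice X] (hX : OnePlusProjective.{u, u} X) (f : X →L[ℝ] ℝ) (hf : OrderContinuous f)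
    (hat : ∀ a, IsLatticeAtom a → f a = 0) (x : X) (hx : 0 ≤ x) : fp f x = 0 := by
  obtain ⟨q, i, hq, hi, hqi, hqd⟩ := exists_section hX
  obtain ⟨L, ρ, hL, hρ⟩ := exists_retract hq hi hqd
  exact phi_eq_zero hq hi hqi hL hρ (ocf_fp hf) (fun a ha => fp_atom ha (hat a ha)) hx

/-- **Q1, answered positively.** Let `X` be a projective Banach lattice. Every order continuous
functional on `X` which vanishes at all atoms of `X` is zero. -/
theorem result (X : Type u) [NormedAddCommGroup X] [Lattice X] [NormedSpace ℝ X]
    [BanachLattice X] (hX : OnePlusProjective.{u, u} X) (f : X →L[ℝ] ℝ) (hf : OrderContinuous f)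
    (hat : ∀ a, IsLatticeAtom a → f a = 0) : f = 0 := by
  have hneg : OrderContinuous (-f) := by
    intro ι _ _ _ x hx hx0
    have := (hf ι x hx hx0).neg
    rw [neg_zero] at this
    exact this
  have hpos : ∀ x, 0 ≤ x → f x = 0 := by
    intro x hx
    apply le_antisymm
    · have h1 := le_fp (f := f) hx le_rfl
      rwa [fp_eq_zero X hX f hf hat x hx] at h1
    · have h1 := le_fp (f := -f) hx le_rfl
      rw [fp_eq_zero X hX (-f) hneg (fun a ha => by
        rw [neg_apply, hat a ha, neg_zero]) x hx, neg_apply] at h1
      linarith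
  ext x
  have h1 : (x ⊔ 0) - (-x ⊔ 0) = x := posPart_sub_negPart x
  rw [← h1, map_sub, hpos _ le_sup_right, hpos _ le_sup_right, sub_zero]
  rfl

end Pool.Agent.Results.MP_100021_an.DeterminedByAtoms
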